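import Pool.Agent.Lib.MP_609849_pr.H1

/-!
# MP_609849_pr: a transitive planar map whose Martin boundary is not its space of ends

`gr` is the Cayley graph of `ℤ² * ℤ/2`, with the rotation system `rot` and the root `rt`.
-/

open MeasureTheory Set
open scoped ENNReal

namespace Pool.Agent.Results.MP_609849_pr.MartinNotEnds

open Pool.Agent.Lib.MP_609849_pr

/-- The statement of the problem (for ergodic reversible simple planar maps, properly embedded in open subsets of the
plane) is false. A deterministic, vertex-transitive counterexample to its case (3): all vertices have degree 5, all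
faces have degree 10, the map is reversible, ergodic, invariantly non-amenable and infinitely-ended, and no space
that is a Martin boundary of it (there is one) is totally disconnected or homeomorphic to the space of ends. -/
theorem result :
    ¬ Statement ∧
    (∃ M : RandomMap Vtx, (∀ ω, M.G ω = gr ∧ M.rot ω = rot ∧ M.root ω = rt) ∧
      M.Reversible ∧ M.Ergodic ∧ ¬ M.InvAmenable) ∧
    IsPlanarMap gr rot ∧
    (∀ x : Vtx, ∃ σ : Vtx ≃ Vtx, σ rt = x ∧ ∀ a b : Vtx,
      (gr.Adj (σ a) (σ b) ↔ gr.Adj a b) ∧ rot (σ a) (σ b) = σ (rot a b)) ∧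
    (∀ x : Vtx, deg gr x = 5) ∧
    (∀ x y : Vtx, gr.Adj x y → Function.minimalPeriod (fun d : Vtx × Vtx => (d.2, rot d.2 d.1)) (x, y) = 10) ∧
    Infinite (Ends gr) ∧
    Transient gr ∧
    (∃ c : Compactification Vtx, IsSmallest (martinK gr rt) c) ∧
    ∀ (X : Type) [TopologicalSpace X], IsMartinBoundary gr rt X →
      ¬ TotallyDisconnectedSpace X ∧ ¬ Nonempty (X ≃ₜ Ends gr) := by
  refine ⟨not_statement, ⟨MM, fun _ => ⟨rfl, rfl, rfl⟩, reversible_MM, ergodic_MM, not_invAmenable_MM⟩,
    isPlanarMap_gr, ?_, deg_eq, face_minimalPeriod, infinite_ends, transient_gr, exists_isSmallest_gr,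
    martin_boundary_gr⟩
  intro x
  obtain ⟨σ, hσ, hx⟩ := exists_aut x
  exact ⟨σ, hx, fun a b => ⟨hσ.adj a b, hσ.rot a b⟩⟩

end Pool.Agent.Results.MP_609849_pr.MartinNotEnds
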